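import Pool.Agent.H13.Poor

namespace Pool.Agent.Results.MP_d359f0_an.PoorNoMeasure

open Pool.Agent.H13.Poor

theorem result : ∃ F : Filter ℕ, Free F ∧ IsPoor F ∧ ¬ Generated F := exists_poor

end Pool.Agent.Results.MP_d359f0_an.PoorNoMeasure
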